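import Pool.Agent.Helper63_CH.Normal
import Pool.Agent.Helper69_CHP.Triple

/-!
The triangle case of the Caccetta–Häggkvist conjecture, in its sharp weighted form, for all digraphs
each of whose prime induced subdigraphs has no transitive triangle, or is spread in one of the two
directions, or has no mixed claw and tame nonneighbourhoods.
-/

set_option autoImplicit false

open scoped Classical

namespace Pool.Agent.Helper69_CHP.Old.PrimePieces

/-- `M` is a module of the digraph induced by `D` on `S`: no vertex of `S` outside `M` distinguishes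
two vertices of `M`. -/
def IsMod {V : Type} (D : Digraph V) (S M : Finset V) : Prop :=
  M ⊆ S ∧ ∀ x ∈ M, ∀ y ∈ M, ∀ z ∈ S, z ∉ M → (D.Adj x z ↔ D.Adj y z) ∧ (D.Adj z x ↔ D.Adj z y)

/-- The digraph induced by `D` on `S` is prime: its modules are the trivial ones. -/
def IsPrimeOn {V : Type} (D : Digraph V) (S : Finset V) : Prop :=
  ∀ M : Finset V, IsMod D S M → M.card ≤ 1 ∨ M = S

/-- distinct nonadjacent vertices -/
def Indep {V : Type} (D : Digraph V) (x y : V) : Prop := x ≠ y ∧ ¬ D.Adj x y ∧ ¬ D.Adj y x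

/-- No vertex of `S` has three pairwise nonadjacent neighbours in `S`, one of them an in-neighbour and
one of them an out-neighbour. -/
def NoMixedClaw {V : Type} (D : Digraph V) (S : Finset V) : Prop :=
  ∀ y ∈ S, ∀ a ∈ S, ∀ b ∈ S, ∀ c ∈ S, Indep D a b → Indep D b c → Indep D a c →
    D.Adj a y → D.Adj y c → ¬ D.Adj b y ∧ ¬ D.Adj y b

/-- If a vertex `v` of `S` has nonneighbours in `S`, then one of them has no out-neighbour, and one of
them has no in-neighbour, among them. -/
def SinkSource {V : Type} (D : Digraph V) (S : Finset V) : Prop :=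
  ∀ v ∈ S, (∃ x ∈ S, Indep D v x) →
    (∃ m ∈ S, Indep D v m ∧ ∀ z ∈ S, Indep D v z → ¬ D.Adj m z) ∧
    ∃ m ∈ S, Indep D v m ∧ ∀ z ∈ S, Indep D v z → ¬ D.Adj z m

/-- No transitive triangle in `S`. -/
def NoTransitiveTriangle {V : Type} (D : Digraph V) (S : Finset V) : Prop :=
  ∀ x ∈ S, ∀ y ∈ S, ∀ z ∈ S, D.Adj x y → D.Adj y z → ¬ D.Adj x z

/-- There is a nonempty subset `X` of `S` such that for every `x` in `X` there are, for some `k ≥ 1`,
`3k` vertices of `X` (not necessarily distinct), none of them with an edge to `x`, such that every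
vertex of `S` is an out-neighbour of at most `k` of them. -/
def Spread {V : Type} (E : V → V → Prop) (S : Finset V) : Prop :=
  ∃ X : Finset V, X.Nonempty ∧ X ⊆ S ∧ ∀ x ∈ X, ∃ k : ℕ, 0 < k ∧ ∃ y : Fin (3 * k) → V,
    (∀ i, y i ∈ X ∧ ¬ E (y i) x) ∧
      ∀ u ∈ S, (Finset.univ.filter fun i => E (y i) u).card ≤ k

/-- The sharp form of the triangle case of the Caccetta–Häggkvist conjecture for every finite
digraph each of whose prime induced subdigraphs has no transitive triangle, or is spread, or is spread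
with all edges reversed, or has no mixed claw and a sink and a source among the nonneighbours of each
vertex. -/
theorem result (V : Type) [Fintype V] (D : Digraph V)
    (h1 : ∀ x, ¬ D.Adj x x) (h2 : ∀ x y, ¬ (D.Adj x y ∧ D.Adj y x))
    (h3 : ∀ x y z, ¬ (D.Adj x y ∧ D.Adj y z ∧ D.Adj z x))
    (hp : ∀ S : Finset V, IsPrimeOn D S → NoTransitiveTriangle D S ∨ Spread D.Adj S ∨
      Spread (fun x y => D.Adj y x) S ∨ (NoMixedClaw D S ∧ SinkSource D S))
    (w : V → ℝ) (hw : ∀ x, 0 ≤ w x) (hpos : 0 < ∑ x, w x) :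
    ∃ x, 0 < w x ∧
      3 * ∑ y ∈ Finset.univ.filter (fun y => D.Adj x y), w y ≤ ∑ y, w y - w x := by
  have hE : Pool.Agent.Helper63_CH.NoC3 D.Adj :=
    ⟨h1, fun x y ha hb => h2 x y ⟨ha, hb⟩, fun x y z ha hb hc => h3 x y z ⟨ha, hb, hc⟩⟩
  -- a spread digraph has no normal form
  have hspread : ∀ (F : V → V → Prop) (S : Finset V), Spread F S →
      ∀ (l : {x // x ∈ S} → ℝ) (ε : ℝ),
        Pool.Agent.Helper23CH.NF (fun x y : {x // x ∈ S} => F x y) l ε → False := by
    intro F S hS l ε hl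
    obtain ⟨X, ⟨x₀, hx₀⟩, hXS, hX⟩ := hS
    refine Pool.Agent.Helper69CHP.spread_nf hl
      (Finset.univ.filter fun x : {x // x ∈ S} => (x : V) ∈ X)
      ⟨⟨x₀, hXS hx₀⟩, Finset.mem_filter.2 ⟨Finset.mem_univ _, hx₀⟩⟩ ?_
    intro x hx
    obtain ⟨k, hk, y, hy, hc⟩ := hX x (Finset.mem_filter.1 hx).2
    refine ⟨k, hk, fun i => ⟨y i, hXS (hy i).1⟩, fun i => ⟨?_, (hy i).2⟩, fun u => hc u u.2⟩
    exact Finset.mem_filter.2 ⟨Finset.mem_univ _, (hy i).1⟩
  have hall : ∀ S : Finset V, Pool.Agent.Helper63_CH.SharpOn D.Adj S := by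
    by_contra hcon
    rw [not_forall] at hcon
    obtain ⟨S, hS, l, m, ε, hl, hm⟩ := Pool.Agent.Helper63_CH.nf_exists hE hcon
    have hCF : Pool.Agent.Helper23CH.CF (fun x y : {x // x ∈ S} => D.Adj x y) :=
      ⟨fun x => h1 x, fun x y a b => h2 x y ⟨a, b⟩, fun x y z a b c => h3 x y z ⟨a, b, c⟩⟩
    rcases hp S (fun M hM => hS M hM) with hN | hN | hN | ⟨hX, hT⟩
    · refine Pool.Agent.Helper69CHP.notri_nf hCF hl ?_
      intro x y z
      exact hN x x.2 y y.2 z z.2
    · exact hspread _ S hN l ε hl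
    · exact hspread _ S hN m ε hm
    · have hC := Pool.Agent.Helper23CH.crit_of_nf hCF hl hm
      -- every vertex has a nonneighbour
      have hne : ∀ v : {x // x ∈ S}, ∃ x ∈ S, Indep D v x := by
        intro v
        obtain ⟨y, hy⟩ := hC.ne v
        obtain ⟨z, hz1, hz2⟩ := hC.out v y hy
        refine ⟨z, z.2, ?_, hz2, ?_⟩
        · intro h
          have h4 : v = z := Subtype.ext h
          rw [← h4] at hz1
          exact h2 _ _ ⟨hy, hz1⟩
        · intro h
          exact h3 _ _ _ ⟨hy, hz1, h⟩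
      refine Pool.Agent.Helper23CH.no_nf hCF hl hm ?_ ?_ ?_
      · intro y a b c hab hbc hac h4 h5
        have conv : ∀ {p q : {x // x ∈ S}},
            Pool.Agent.Helper23CH.NA (fun x y : {x // x ∈ S} => D.Adj x y) p q → Indep D p q :=
          fun {p q} h => ⟨fun h6 => h.1 (Subtype.ext h6), h.2.1, h.2.2⟩
        exact hX y y.2 a a.2 b b.2 c c.2 (conv hab) (conv hbc) (conv hac) h4 h5
      · intro v
        obtain ⟨⟨k, hk, hk1, hk2⟩, -⟩ := hT v v.2 (hne v)
        refine ⟨⟨k, hk⟩, ⟨fun h => hk1.1 (congrArg Subtype.val h), hk1.2.1, hk1.2.2⟩, ?_⟩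
        intro z hz
        exact hk2 z z.2 ⟨fun h => hz.1 (Subtype.ext h), hz.2.1, hz.2.2⟩
      · intro v
        obtain ⟨-, k, hk, hk1, hk2⟩ := hT v v.2 (hne v)
        refine ⟨⟨k, hk⟩, ⟨fun h => hk1.1 (congrArg Subtype.val h), hk1.2.2, hk1.2.1⟩, ?_⟩
        intro z hz
        exact hk2 z z.2 ⟨fun h => hz.1 (Subtype.ext h), hz.2.2, hz.2.1⟩
  obtain ⟨x, -, hx1, hx2⟩ := hall Finset.univ w hw hpos
  refine ⟨x, hx1, ?_⟩
  have h4 : ∑ y ∈ Finset.univ.filter (fun y => D.Adj x y), w y
      = ∑ y, Pool.Agent.Helper63_CH.e D.Adj x y * w y := by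
    rw [Finset.sum_filter]
    apply Finset.sum_congr rfl
    intro y _
    by_cases h : D.Adj x y
    · rw [if_pos h, Pool.Agent.Helper63_CH.e_one D.Adj h, one_mul]
    · rw [if_neg h, Pool.Agent.Helper63_CH.e_zero D.Adj h, zero_mul]
  rw [h4]
  exact hx2

end Pool.Agent.Helper69_CHP.Old.PrimePieces
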